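import Mathlib

/-!
# The unit group of the universal CP monoid is generated by the symmetric groups

The answer to Q1 is yes: the group of units of the universal (initial) CP monoid `U` is generated by
the images `ψ_{Φ,τ}(S_d)`, `d ≥ 2`, of the symmetric groups for the `d`-CP structures `(Φ, τ)` which are
obtained from `(Σ, π₁, π₂)` and `(id, 1)` by combining structures.

Idea of the proof. For a word `v = v₁ … v_k` let `p v = π_{v_k} ⋯ π_{v₁}`. By initiality every element `u`
of `U` is given by words: `p l * u = p (w l)` for all words `l` of some length `n`. If `u` is a unit,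
then the words `w l` are the leaves of a finite binary tree. So it suffices to show: if `T` and `T'` are
finite binary trees, `f` is a bijection from the leaves of `T` to the leaves of `T'` and
`p l * u = p (f l)` for all leaves `l` of `T`, then `u` is in the subgroup. This is shown by induction on
the number of leaves: both trees have two leaves which are siblings, `a0, a1` and `b0, b1`. The
permutations of the leaves of `T'` are in the subgroup, so we may assume that `f (a0) = b0` and
`f (a1) = b1`. Then `p a * u = p b` and the two siblings can be removed from both trees.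
-/

set_option autoImplicit false

universe u

namespace Pool.Agent.Results.MP_6189ff_al.SymmetricGroupsGenerate

/-- A `d`-CP structure `(Φ, τ 0, …, τ (d-1))` on the monoid `M`: `Φ` is a bijection from `M ^ d` to `M` and
`τ i * Φ m = m i`. -/
structure CP (M : Type u) [Monoid M] (d : ℕ) where
  /-- the bijection from `M ^ d` to `M` -/
  Φ : (Fin d → M) → M
  /-- the distinguished elements -/
  τ : Fin d → M
  bij : Function.Bijective Φ
  mul_Φ : ∀ (i : Fin d) (m : Fin d → M), τ i * Φ m = m i

/-- `f` is a homomorphism from the CP monoid `(M, s)` to the CP monoid `(N, t)` (a CP monoid is a monoid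
with a 2-CP structure). -/
def IsHom {M N : Type u} [Monoid M] [Monoid N] (s : CP M 2) (t : CP N 2) (f : M →* N) : Prop :=
  (∀ i, f (s.τ i) = t.τ i) ∧ ∀ m : Fin 2 → M, f (s.Φ m) = t.Φ (fun i => f (m i))

/-- The CP monoid `(U, s)` is an initial object of the category of CP monoids. -/
def IsUniversal {U : Type u} [Monoid U] (s : CP U 2) : Prop :=
  ∀ (N : Type u) [Monoid N] (t : CP N 2), ∃! f : U →* N, IsHom s t f

/-- The 1-CP structure `(id, 1)`. -/
def idCP (M : Type u) [Monoid M] : CP M 1 where
  Φ m := m 0
  τ _ := 1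
  bij := ⟨fun a b h => by funext i; rw [Subsingleton.elim i 0]; exact h, fun m => ⟨fun _ => m, rfl⟩⟩
  mul_Φ i m := by rw [one_mul, Subsingleton.elim i 0]

/-- Combination of an `s`-CP structure `(Ψ, ρ)` with `s` structures `(Φ i, τ i)`: the distinguished elements
are the `τ i j * ρ i` in the lexicographic order, the bijection is
`m ↦ Ψ (Φ 0 (m 0 0, …), …, Φ (s-1) (m (s-1) 0, …))`. -/
def comb {M : Type u} [Monoid M] {s : ℕ} (Ψ : CP M s) (d : Fin s → ℕ) (P : ∀ i, CP M (d i)) :
    CP M (∑ i, d i) where
  Φ m := Ψ.Φ fun i => (P i).Φ fun j => m (finSigmaFinEquiv ⟨i, j⟩)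
  τ k := (P (finSigmaFinEquiv.symm k).1).τ (finSigmaFinEquiv.symm k).2 *
    Ψ.τ (finSigmaFinEquiv.symm k).1
  bij := by
    constructor
    · intro a b h
      funext k
      obtain ⟨⟨i, j⟩, rfl⟩ := finSigmaFinEquiv.surjective k
      have h1 := congrFun (Ψ.bij.1 h) i
      exact congrFun ((P i).bij.1 h1) j
    · intro m
      obtain ⟨a, rfl⟩ := Ψ.bij.2 m
      choose b hb using fun i => (P i).bij.2 (a i)
      obtain ⟨B, hB⟩ : ∃ B : (Σ i, Fin (d i)) → M, ∀ x, B x = b x.1 x.2 := ⟨_, fun _ => rfl⟩
      refine ⟨fun k => B (finSigmaFinEquiv.symm k), ?_⟩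
      show Ψ.Φ (fun i => (P i).Φ fun j => B (finSigmaFinEquiv.symm (finSigmaFinEquiv ⟨i, j⟩))) = _
      congr 1
      funext i
      rw [← hb i]
      congr 1
      funext j
      rw [Equiv.symm_apply_apply, hB]
  mul_Φ k m := by
    obtain ⟨⟨i, j⟩, rfl⟩ := finSigmaFinEquiv.surjective k
    rw [Equiv.symm_apply_apply, mul_assoc, Ψ.mul_Φ, (P i).mul_Φ]

/-- The set `𝕊(U)` of all structures obtained from the 2-CP structure `s` and from `(id, 1)` by finitely
many combinations. -/
inductive S {U : Type u} [Monoid U] (s : CP U 2) : (d : ℕ) → CP U d → Prop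
  | base : S s 2 s
  | one : S s 1 (idCP U)
  | comb {k : ℕ} {Ψ : CP U k} {d : Fin k → ℕ} {P : ∀ i, CP U (d i)} (hΨ : S s k Ψ)
      (hP : ∀ i, S s (d i) (P i)) : S s (∑ i, d i) (comb Ψ d P)

/-- `ψ_{Φ,τ} σ = Φ (τ (σ⁻¹ 1), …, τ (σ⁻¹ d))`. -/
def psi {M : Type u} [Monoid M] {d : ℕ} (P : CP M d) (σ : Equiv.Perm (Fin d)) : M :=
  P.Φ fun i => P.τ (σ⁻¹ i)

section
variable {M : Type u} [Monoid M]

theorem CP.ext' {d : ℕ} (P : CP M d) {m m' : M} (h : ∀ i, P.τ i * m = P.τ i * m') : m = m' := by
  obtain ⟨a, rfl⟩ := P.bij.2 m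
  obtain ⟨b, rfl⟩ := P.bij.2 m'
  congr 1
  funext i
  have := h i
  rwa [P.mul_Φ, P.mul_Φ] at this

theorem psi_mul {d : ℕ} (P : CP M d) (σ σ' : Equiv.Perm (Fin d)) :
    psi P σ * psi P σ' = psi P (σ * σ') := by
  refine P.ext' fun i => ?_
  unfold psi
  rw [← mul_assoc, P.mul_Φ, P.mul_Φ, P.mul_Φ, mul_inv_rev]
  rfl

theorem psi_one {d : ℕ} (P : CP M d) : psi P 1 = 1 := by
  refine P.ext' fun i => ?_
  unfold psi
  rw [P.mul_Φ, mul_one]
  simp

/-- the unit `ψ σ` -/
def psiU {d : ℕ} (P : CP M d) (σ : Equiv.Perm (Fin d)) : Mˣ where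
  val := psi P σ
  inv := psi P σ⁻¹
  val_inv := by rw [psi_mul, mul_inv_cancel, psi_one]
  inv_val := by rw [psi_mul, inv_mul_cancel, psi_one]

/-- the subgroup of the unit group generated by the images of all symmetric groups -/
def H (s : CP M 2) : Subgroup Mˣ :=
  Subgroup.closure {u : Mˣ | ∃ (d : ℕ) (P : CP M d) (σ : Equiv.Perm (Fin d)),
    2 ≤ d ∧ S s d P ∧ (u : M) = psi P σ}

variable (s : CP M 2)

/-- the index of a letter -/
def ix (b : Bool) : Fin 2 := if b then 1 else 0

/-- the letter of an index -/
def bit (i : Fin 2) : Bool := decide (i = 1)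

theorem ix_bit (i : Fin 2) : ix (bit i) = i := by
  fin_cases i <;> rfl

theorem bit_ix (b : Bool) : bit (ix b) = b := by
  cases b <;> rfl

/-- the element `π_{v_k} ⋯ π_{v_1}` -/
def p : List Bool → M
  | [] => 1
  | b :: v => p v * s.τ (ix b)

theorem p_append (a v : List Bool) : p s (a ++ v) = p s v * p s a := by
  induction a with
  | nil => simp [p]
  | cons b a ih => rw [List.cons_append, p, ih, p, mul_assoc]

/-- finite binary trees -/
inductive Tree
  | leaf : Tree
  | node (l r : Tree) : Tree

/-- the subtree of a node with the root `b` -/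
def sub (l r : Tree) (b : Bool) : Tree := if b then r else l

/-- the addresses of the leaves -/
def lv : Tree → Finset (List Bool)
  | .leaf => {[]}
  | .node l r => (lv l).image (List.cons false) ∪ (lv r).image (List.cons true)

/-- the number of inner nodes -/
def size : Tree → ℕ
  | .leaf => 0
  | .node l r => size l + size r + 1

theorem mem_leaf (x : List Bool) : x ∈ lv .leaf ↔ x = [] := by
  simp [lv]

theorem mem_node (l r : Tree) (b : Bool) (v : List Bool) :
    b :: v ∈ lv (.node l r) ↔ v ∈ lv (sub l r b) := by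
  cases b <;> simp [lv, sub]

theorem nil_notMem (l r : Tree) : [] ∉ lv (.node l r) := by
  simp [lv]

theorem lv_nonempty (T : Tree) : ∃ x, x ∈ lv T := by
  induction T with
  | leaf => exact ⟨[], by simp [lv]⟩
  | node l r hl _ =>
    obtain ⟨x, hx⟩ := hl
    exact ⟨false :: x, by rw [mem_node]; exact hx⟩

/-- no leaf is a proper prefix of another one -/
theorem prefix_free (T : Tree) : ∀ a v : List Bool, a ∈ lv T → a ++ v ∈ lv T → v = [] := by
  induction T with
  | leaf =>
    intro a v ha hv
    rw [mem_leaf] at ha hv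
    subst ha
    simpa using hv
  | node l r hl hr =>
    intro a v ha hv
    cases a with
    | nil => exact absurd ha (nil_notMem l r)
    | cons b a =>
      rw [List.cons_append, mem_node] at hv
      rw [mem_node] at ha
      cases b
      · exact hl a v ha hv
      · exact hr a v ha hv

/-- every finite binary tree gives a structure in `𝕊(U)` -/
theorem exists_struct (T : Tree) : ∃ (d : ℕ) (P : CP M d) (e : Fin d → List Bool), S s d P ∧
    Function.Injective e ∧ (∀ x, x ∈ lv T ↔ ∃ i, e i = x) ∧ ∀ i, P.τ i = p s (e i) := by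
  induction T with
  | leaf =>
    refine ⟨1, idCP M, fun _ => [], S.one, fun i j _ => Subsingleton.elim i j, fun x => ?_,
      fun i => rfl⟩
    rw [mem_leaf]
    exact ⟨fun h => ⟨0, h.symm⟩, fun ⟨_, h⟩ => h.symm⟩
  | node l r hl hr =>
    have IH : ∀ i : Fin 2, ∃ (d : ℕ) (P : CP M d) (e : Fin d → List Bool), S s d P ∧
        Function.Injective e ∧ (∀ x, x ∈ lv (sub l r (bit i)) ↔ ∃ i, e i = x) ∧
        ∀ i, P.τ i = p s (e i) := by
      intro i
      fin_cases i
      · exact hl
      · exact hr
    choose d P e hS hinj hmem hτ using IH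
    obtain ⟨E, hE⟩ : ∃ E : (Σ i, Fin (d i)) → List Bool, ∀ x, E x = bit x.1 :: e x.1 x.2 :=
      ⟨_, fun _ => rfl⟩
    refine ⟨∑ i, d i, comb s d P, fun k => E (finSigmaFinEquiv.symm k), S.comb S.base hS,
      ?_, ?_, ?_⟩
    · intro k k' h
      obtain ⟨⟨i, j⟩, rfl⟩ := finSigmaFinEquiv.surjective k
      obtain ⟨⟨i', j'⟩, rfl⟩ := finSigmaFinEquiv.surjective k'
      simp only [Equiv.symm_apply_apply, hE, List.cons.injEq] at h
      obtain ⟨h1, h2⟩ := h
      have h3 : i = i' := by rw [← ix_bit i, ← ix_bit i', h1]
      subst h3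
      rw [hinj i h2]
    · intro x
      cases x with
      | nil =>
        refine ⟨fun h => absurd h (nil_notMem l r), ?_⟩
        rintro ⟨k, hk⟩
        change E (finSigmaFinEquiv.symm k) = [] at hk
        rw [hE] at hk
        exact absurd hk (List.cons_ne_nil _ _)
      | cons b v =>
        rw [mem_node]
        have h1 := hmem (ix b) v
        rw [bit_ix] at h1
        rw [h1]
        constructor
        · rintro ⟨j, hj⟩
          refine ⟨finSigmaFinEquiv ⟨ix b, j⟩, ?_⟩
          simp only [Equiv.symm_apply_apply, hE, bit_ix, hj]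
        · rintro ⟨k, hk⟩
          obtain ⟨⟨i, j⟩, rfl⟩ := finSigmaFinEquiv.surjective k
          simp only [Equiv.symm_apply_apply, hE, List.cons.injEq] at hk
          obtain ⟨rfl, hk2⟩ := hk
          rw [ix_bit]
          exact ⟨j, hk2⟩
    · intro k
      obtain ⟨⟨i, j⟩, rfl⟩ := finSigmaFinEquiv.surjective k
      have h1 : (comb s d P).τ (finSigmaFinEquiv ⟨i, j⟩) = (P i).τ j * s.τ i := by
        obtain ⟨D, hD⟩ : ∃ D : (Σ i, Fin (d i)) → M, ∀ x, D x = (P x.1).τ x.2 * s.τ x.1 :=
          ⟨_, fun _ => rfl⟩
        have h2 : (comb s d P).τ (finSigmaFinEquiv ⟨i, j⟩) =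
            D (finSigmaFinEquiv.symm (finSigmaFinEquiv ⟨i, j⟩)) := (hD _).symm
        rw [h2, Equiv.symm_apply_apply, hD]
      rw [h1]
      show _ = p s (E (finSigmaFinEquiv.symm (finSigmaFinEquiv ⟨i, j⟩)))
      rw [Equiv.symm_apply_apply, hE, p, ix_bit, hτ]

theorem tree_ext (T : Tree) {m m' : M} (h : ∀ x ∈ lv T, p s x * m = p s x * m') : m = m' := by
  obtain ⟨d, P, e, _, _, hmem, hτ⟩ := exists_struct s T
  refine P.ext' fun i => ?_
  rw [hτ]
  exact h _ ((hmem _).2 ⟨i, rfl⟩)

/-- permutations of the leaves are in the subgroup -/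
theorem perm_mem (T : Tree) (hT : T ≠ .leaf) (σ : Equiv.Perm (List Bool))
    (hσ : ∀ x, x ∈ lv T ↔ σ x ∈ lv T) :
    ∃ u ∈ H s, ∀ x ∈ lv T, p s x * (u : M) = p s (σ x) := by
  obtain ⟨d, P, e, hS, hinj, hmem, hτ⟩ := exists_struct s T
  have hd : 2 ≤ d := by
    cases T with
    | leaf => exact absurd rfl hT
    | node l r =>
      obtain ⟨x, hx⟩ := lv_nonempty l
      obtain ⟨y, hy⟩ := lv_nonempty r
      obtain ⟨i, hi⟩ := (hmem (false :: x)).1 (by rw [mem_node]; exact hx)
      obtain ⟨j, hj⟩ := (hmem (true :: y)).1 (by rw [mem_node]; exact hy)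
      have hij : i ≠ j := by
        rintro rfl
        rw [hi] at hj
        exact absurd (List.cons.inj hj).1 (by decide)
      have h1 := i.2
      have h2 := j.2
      have h3 : (i : ℕ) ≠ j := fun h => hij (Fin.ext h)
      omega
  let E : Fin d ≃ {x // x ∈ lv T} := Equiv.ofBijective (fun i => ⟨e i, (hmem _).2 ⟨i, rfl⟩⟩)
    ⟨fun i j h => hinj (congrArg Subtype.val h), fun ⟨x, hx⟩ => by
      obtain ⟨i, hi⟩ := (hmem x).1 hx
      exact ⟨i, Subtype.ext hi⟩⟩
  let σ' : Equiv.Perm (Fin d) := (E.trans (σ.subtypePerm fun x => (hσ x).symm)).trans E.symm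
  have hσ' : ∀ i, e (σ' i) = σ (e i) := by
    intro i
    have h1 : E (σ' i) = σ.subtypePerm (fun x => (hσ x).symm) (E i) := by
      simp [σ']
    exact congrArg Subtype.val h1
  refine ⟨psiU P σ'⁻¹, Subgroup.subset_closure ⟨d, P, σ'⁻¹, hd, hS, rfl⟩, fun x hx => ?_⟩
  obtain ⟨i, rfl⟩ := (hmem x).1 hx
  show p s (e i) * psi P σ'⁻¹ = _
  rw [← hτ, psi, P.mul_Φ, inv_inv, hτ, hσ']

/-- a tree with more than one leaf has two sibling leaves -/
theorem exists_caret (T : Tree) (hT : T ≠ .leaf) : ∃ (T₀ : Tree) (a : List Bool),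
    size T₀ < size T ∧ a ∈ lv T₀ ∧
    ∀ x, x ∈ lv T ↔ x = a ++ [false] ∨ x = a ++ [true] ∨ (x ∈ lv T₀ ∧ x ≠ a) := by
  induction T with
  | leaf => exact absurd rfl hT
  | node l r hl hr =>
    by_cases h1 : l = .leaf
    · by_cases h2 : r = .leaf
      · subst h1 h2
        refine ⟨.leaf, [], by simp [size], by simp [lv], fun x => ?_⟩
        simp [lv]
      · obtain ⟨T₀, a, ha, ha2, h⟩ := hr h2
        refine ⟨.node l T₀, true :: a, by simp only [size]; omega, by rw [mem_node]; exact ha2,
          fun x => ?_⟩
        rcases x with _ | ⟨_ | _, v⟩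
        · simp [nil_notMem]
        · rw [mem_node, mem_node]
          simp [sub]
        · rw [mem_node, mem_node]
          simp only [sub, if_true, List.cons_append, List.cons.injEq, true_and, ne_eq]
          exact h v
    · obtain ⟨T₀, a, ha, ha2, h⟩ := hl h1
      refine ⟨.node T₀ r, false :: a, by simp only [size]; omega, by rw [mem_node]; exact ha2,
        fun x => ?_⟩
      rcases x with _ | ⟨_ | _, v⟩
      · simp [nil_notMem]
      · rw [mem_node, mem_node]
        simp only [sub, Bool.false_eq_true, if_false, List.cons_append, List.cons.injEq, true_and,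
          ne_eq]
        exact h v
      · rw [mem_node, mem_node]
        simp [sub]

theorem p_snoc (a : List Bool) (b : Bool) : p s (a ++ [b]) = s.τ (ix b) * p s a := by
  rw [p_append]
  simp [p]

theorem two_ext {m m' : M} (h : ∀ b : Bool, s.τ (ix b) * m = s.τ (ix b) * m') : m = m' := by
  refine s.ext' fun i => ?_
  have := h (bit i)
  rwa [ix_bit] at this

/-- **Main step.** A bijection between the leaves of two trees is in the subgroup. -/
theorem bij_mem : ∀ (n : ℕ) (T T' : Tree) (f : List Bool → List Bool) (g : M), size T = n →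
    Set.BijOn f (lv T) (lv T') → (∀ x ∈ lv T, p s x * g = p s (f x)) →
    ∃ u ∈ H s, (u : M) = g := by
  intro n
  induction n using Nat.strong_induction_on with
  | _ n ih =>
    intro T T' f g hn hf hg
    by_cases hT : T = .leaf
    · -- one leaf
      subst hT
      have hT' : T' = .leaf := by
        cases T' with
        | leaf => rfl
        | node l r =>
          exfalso
          obtain ⟨x, hx⟩ := lv_nonempty l
          obtain ⟨y, hy⟩ := lv_nonempty r
          obtain ⟨i, hi, hi2⟩ := hf.surjOn (show (false :: x) ∈ (lv (.node l r) : Set (List Bool))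
            from Finset.mem_coe.2 ((mem_node l r false x).2 hx))
          obtain ⟨j, hj, hj2⟩ := hf.surjOn (show (true :: y) ∈ (lv (.node l r) : Set (List Bool))
            from Finset.mem_coe.2 ((mem_node l r true y).2 hy))
          rw [Finset.mem_coe, mem_leaf] at hi hj
          rw [hi] at hi2
          rw [hj, hi2] at hj2
          exact absurd (List.cons.inj hj2).1 (by decide)
      subst hT'
      refine ⟨1, one_mem _, ?_⟩
      have h1 := hg [] (by simp [lv])
      have h2 : f [] = [] := by
        have := hf.mapsTo (show ([] : List Bool) ∈ (lv .leaf : Set (List Bool)) by simp [lv])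
        rwa [Finset.mem_coe, mem_leaf] at this
      rw [h2] at h1
      simpa [p] using h1.symm
    · have hT' : T' ≠ .leaf := by
        rintro rfl
        obtain ⟨T₀, a, -, -, h⟩ := exists_caret T hT
        have h1 := (h (a ++ [false])).2 (Or.inl rfl)
        have h2 := (h (a ++ [true])).2 (Or.inr (Or.inl rfl))
        have h3 := hf.mapsTo (Finset.mem_coe.2 h1)
        have h4 := hf.mapsTo (Finset.mem_coe.2 h2)
        rw [Finset.mem_coe, mem_leaf] at h3 h4
        have h5 := hf.injOn (Finset.mem_coe.2 h1) (Finset.mem_coe.2 h2) (h3.trans h4.symm)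
        simp at h5
      obtain ⟨T₀, a, hsz, ha, hTa⟩ := exists_caret T hT
      obtain ⟨T₁, b, hsz', hb, hTb⟩ := exists_caret T' hT'
      have ha0 := (hTa (a ++ [false])).2 (Or.inl rfl)
      have ha1 := (hTa (a ++ [true])).2 (Or.inr (Or.inl rfl))
      have hb0 := (hTb (b ++ [false])).2 (Or.inl rfl)
      have hb1 := (hTb (b ++ [true])).2 (Or.inr (Or.inl rfl))
      have hc0 : f (a ++ [false]) ∈ lv T' := hf.mapsTo (Finset.mem_coe.2 ha0)
      have hc1 : f (a ++ [true]) ∈ lv T' := hf.mapsTo (Finset.mem_coe.2 ha1)
      have hc01 : f (a ++ [false]) ≠ f (a ++ [true]) := by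
        intro h
        have h5 := hf.injOn (Finset.mem_coe.2 ha0) (Finset.mem_coe.2 ha1) h
        simp at h5
      have hb01 : b ++ [false] ≠ b ++ [true] := by simp
      -- the permutation
      obtain ⟨σ₁, hσ₁⟩ : ∃ σ₁, σ₁ = Equiv.swap (f (a ++ [false])) (b ++ [false]) := ⟨_, rfl⟩
      obtain ⟨σ, hσ⟩ : ∃ σ, σ = Equiv.swap (σ₁ (f (a ++ [true]))) (b ++ [true]) * σ₁ := ⟨_, rfl⟩
      have hσ₁L : ∀ x, x ∈ lv T' → σ₁ x ∈ lv T' := by
        intro x hx
        rw [hσ₁, Equiv.swap_apply_def]
        split_ifs <;> assumption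
      have hσL : ∀ x, x ∈ lv T' → σ x ∈ lv T' := by
        intro x hx
        have h1 := hσ₁L x hx
        have h2 := hσ₁L _ hc1
        rw [hσ, Equiv.Perm.mul_apply, Equiv.swap_apply_def]
        split_ifs <;> assumption
      have hσiff : ∀ x, x ∈ lv T' ↔ σ x ∈ lv T' := by
        have hbij : Set.BijOn σ (lv T' : Set (List Bool)) (lv T') := by
          have hm : Set.MapsTo σ (lv T' : Set (List Bool)) (lv T') := fun x hx => hσL x hx
          refine ⟨hm, σ.injective.injOn, ?_⟩
          exact (Finset.surjOn_of_injOn_of_card_le σ hm σ.injective.injOn le_rfl)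
        intro x
        refine ⟨hσL x, fun h => ?_⟩
        obtain ⟨y, hy, hy2⟩ := hbij.surjOn (Finset.mem_coe.2 h)
        rw [σ.injective hy2] at hy
        exact hy
      have hσ0 : σ (f (a ++ [false])) = b ++ [false] := by
        have h1 : σ₁ (f (a ++ [false])) = b ++ [false] := by rw [hσ₁, Equiv.swap_apply_left]
        rw [hσ, Equiv.Perm.mul_apply, h1, Equiv.swap_apply_of_ne_of_ne _ hb01]
        rw [← h1]
        exact fun h => hc01 (σ₁.injective h)
      have hσ1 : σ (f (a ++ [true])) = b ++ [true] := by
        rw [hσ, Equiv.Perm.mul_apply, Equiv.swap_apply_left]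
      obtain ⟨v, hv, hv2⟩ := perm_mem s T' hT' σ hσiff
      have hgv : ∀ x ∈ lv T, p s x * (g * v) = p s (σ (f x)) := by
        intro x hx
        rw [← mul_assoc, hg x hx, hv2 _ (hf.mapsTo (Finset.mem_coe.2 hx))]
      -- remove the siblings
      have hab : p s a * (g * v) = p s b := by
        refine two_ext s fun c => ?_
        rw [← mul_assoc, ← p_snoc, ← p_snoc]
        cases c
        · rw [hgv _ ha0, hσ0]
        · rw [hgv _ ha1, hσ1]
      have haT : a ∉ lv T := fun h => by
        have := prefix_free T a [false] h ha0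
        simp at this
      have hbT : b ∉ lv T' := fun h => by
        have := prefix_free T' b [false] h hb0
        simp at this
      have ha0' : a ++ [false] ∉ lv T₀ := fun h => by
        have := prefix_free T₀ a [false] ha h
        simp at this
      have ha1' : a ++ [true] ∉ lv T₀ := fun h => by
        have := prefix_free T₀ a [true] ha h
        simp at this
      have hb0' : b ++ [false] ∉ lv T₁ := fun h => by
        have := prefix_free T₁ b [false] hb h
        simp at this
      have hb1' : b ++ [true] ∉ lv T₁ := fun h => by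
        have := prefix_free T₁ b [true] hb h
        simp at this
      have hT₀ : ∀ x, x ∈ lv T₀ → x ≠ a → x ∈ lv T := fun x hx hxa =>
        (hTa x).2 (Or.inr (Or.inr ⟨hx, hxa⟩))
      have hT₁ : ∀ x, x ∈ lv T₁ → x ≠ b → x ∈ lv T' := fun x hx hxa =>
        (hTb x).2 (Or.inr (Or.inr ⟨hx, hxa⟩))
      have hinj' : ∀ x ∈ lv T, ∀ y ∈ lv T, σ (f x) = σ (f y) → x = y := fun x hx y hy h =>
        hf.injOn (Finset.mem_coe.2 hx) (Finset.mem_coe.2 hy) (σ.injective h)
      have hB : Set.BijOn (fun x => if x = a then b else σ (f x)) (lv T₀ : Set (List Bool))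
          (lv T₁) := by
        refine ⟨?_, ?_, ?_⟩
        · intro x hx
          rw [Finset.mem_coe] at hx ⊢
          show (if x = a then b else σ (f x)) ∈ lv T₁
          split_ifs with h
          · exact hb
          · have hxT := hT₀ x hx h
            have h1 := hσL _ (hf.mapsTo (Finset.mem_coe.2 hxT))
            rcases (hTb _).1 h1 with h2 | h2 | h2
            · rw [← hσ0] at h2
              have := hinj' x hxT _ ha0 h2
              rw [this] at hx
              exact absurd hx ha0'
            · rw [← hσ1] at h2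
              have := hinj' x hxT _ ha1 h2
              rw [this] at hx
              exact absurd hx ha1'
            · exact h2.1
        · intro x hx y hy hxy
          rw [Finset.mem_coe] at hx hy
          change (if x = a then b else σ (f x)) = (if y = a then b else σ (f y)) at hxy
          split_ifs at hxy with h1 h2 h2
          · rw [h1, h2]
          · exfalso
            apply hbT
            rw [hxy]
            exact hσL _ (hf.mapsTo (Finset.mem_coe.2 (hT₀ y hy h2)))
          · exfalso
            apply hbT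
            rw [← hxy]
            exact hσL _ (hf.mapsTo (Finset.mem_coe.2 (hT₀ x hx h1)))
          · exact hinj' x (hT₀ x hx h1) y (hT₀ y hy h2) hxy
        · intro y hy
          rw [Finset.mem_coe] at hy
          by_cases hyb : y = b
          · exact ⟨a, ha, by simp [hyb]⟩
          · have hyT := hT₁ y hy hyb
            have h1 : σ.symm y ∈ lv T' := by
              rw [hσiff, Equiv.apply_symm_apply]
              exact hyT
            obtain ⟨x, hx, hx2⟩ := hf.surjOn (Finset.mem_coe.2 h1)
            have hσx : σ (f x) = y := by rw [hx2, Equiv.apply_symm_apply]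
            rw [Finset.mem_coe] at hx
            have hxa : x ≠ a := fun h => haT (h ▸ hx)
            refine ⟨x, ?_, ?_⟩
            · rw [Finset.mem_coe]
              rcases (hTa x).1 hx with h2 | h2 | h2
              · exfalso
                rw [h2, hσ0] at hσx
                rw [← hσx] at hy
                exact hb0' hy
              · exfalso
                rw [h2, hσ1] at hσx
                rw [← hσx] at hy
                exact hb1' hy
              · exact h2.1
            · show (if x = a then b else σ (f x)) = y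
              rw [if_neg hxa, hσx]
      have hG : ∀ x ∈ lv T₀, p s x * (g * v) =
          p s ((fun x => if x = a then b else σ (f x)) x) := by
        intro x hx
        show _ = p s (if x = a then b else σ (f x))
        split_ifs with h
        · rw [h, hab]
        · exact hgv x (hT₀ x hx h)

      obtain ⟨w, hw, hw2⟩ := ih (size T₀) (by omega) T₀ T₁
        (fun x => if x = a then b else σ (f x)) (g * v) rfl hB hG
      refine ⟨w * v⁻¹, mul_mem hw (inv_mem hv), ?_⟩
      rw [Units.val_mul, hw2, mul_assoc, Units.mul_inv, mul_one]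

end

/-! ### Antichains are contained in the leaves of a tree -/

theorem antichain_tree : ∀ (N : ℕ) (A : Finset (List Bool)), (∀ x ∈ A, x.length ≤ N) →
    (∀ x ∈ A, ∀ v, x ++ v ∈ A → v = []) → ∃ T, ∀ x ∈ A, x ∈ lv T := by
  intro N
  induction N with
  | zero =>
    intro A hA _
    refine ⟨.leaf, fun x hx => ?_⟩
    rw [mem_leaf]
    exact List.eq_nil_of_length_eq_zero (Nat.le_zero.1 (hA x hx))
  | succ N ih =>
    intro A hA hanti
    by_cases h : [] ∈ A
    · refine ⟨.leaf, fun x hx => ?_⟩
      rw [mem_leaf]
      exact hanti [] h x (by simpa using hx)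
    · have key : ∀ b : Bool, ∃ T, ∀ x, b :: x ∈ A → x ∈ lv T := by
        intro b
        obtain ⟨T, hT⟩ := ih (A.preimage (List.cons b) (List.cons_injective.injOn))
          (fun x hx => by
            rw [Finset.mem_preimage] at hx
            have := hA _ hx
            rw [List.length_cons] at this
            omega)
          (fun x hx v hv => by
            rw [Finset.mem_preimage] at hx hv
            exact hanti _ hx v hv)
        exact ⟨T, fun x hx => hT x (by rw [Finset.mem_preimage]; exact hx)⟩
      choose T hT using key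
      refine ⟨.node (T false) (T true), fun x hx => ?_⟩
      cases x with
      | nil => exact absurd hx h
      | cons b v =>
        rw [mem_node]
        cases b
        · exact hT false v hx
        · exact hT true v hx

/-- the full tree of depth `n` -/
def full : ℕ → Tree
  | 0 => .leaf
  | n + 1 => .node (full n) (full n)

theorem mem_full : ∀ (n : ℕ) (x : List Bool), x ∈ lv (full n) ↔ x.length = n := by
  intro n
  induction n with
  | zero => intro x; rw [full, mem_leaf]; exact List.length_eq_zero_iff.symm
  | succ n ih =>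
    intro x
    cases x with
    | nil =>
      rw [full]
      refine ⟨fun h => absurd h (nil_notMem _ _), fun h => ?_⟩
      simp at h
    | cons b v =>
      rw [full, mem_node, sub, ite_self, ih, List.length_cons]
      omega

/-! ### The action on the Cantor space -/

/-- the Cantor space -/
abbrev C : Type u := ℕ → ULift.{u} Bool

/-- add a letter in front -/
def consC (b : Bool) (y : C.{u}) : C.{u}
  | 0 => ⟨b⟩
  | n + 1 => y n

theorem consC_eta (y : C.{u}) : consC (y 0).down (fun n => y (n + 1)) = y := by
  funext n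
  cases n <;> rfl

/-- pairing in the opposite of the monoid of the selfmaps of the Cantor space -/
def modelΦ (m : Fin 2 → (Function.End C.{u})ᵐᵒᵖ) : (Function.End C.{u})ᵐᵒᵖ :=
  MulOpposite.op (fun y : C.{u} => (m (ix (y 0).down)).unop fun n => y (n + 1))

/-- its distinguished elements -/
def modelτ (i : Fin 2) : (Function.End C.{u})ᵐᵒᵖ :=
  MulOpposite.op (fun y : C.{u} => consC (bit i) y)

theorem model_mul (i : Fin 2) (m : Fin 2 → (Function.End C.{u})ᵐᵒᵖ) :
    modelτ i * modelΦ m = m i := by
  apply MulOpposite.unop_injective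
  funext y
  show (m (ix (bit i))).unop y = _
  rw [ix_bit]

/-- the opposite of the monoid of the selfmaps of the Cantor space is a CP monoid -/
def model : CP (Function.End C.{u})ᵐᵒᵖ 2 where
  Φ := modelΦ
  τ := modelτ
  bij := by
    constructor
    · intro a b h
      funext i
      rw [← model_mul i a, ← model_mul i b, h]
    · intro F
      refine ⟨fun i => MulOpposite.op (fun y : C.{u} => F.unop (consC (bit i) y)), ?_⟩
      apply MulOpposite.unop_injective
      funext y
      show F.unop (consC (bit (ix (y 0).down)) fun n => y (n + 1)) = F.unop y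
      rw [bit_ix, consC_eta]
  mul_Φ := model_mul

theorem p_model_cons (b : Bool) (v : List Bool) (y : C.{u}) :
    (p model (b :: v)).unop y = consC b ((p model v).unop y) := by
  show consC (bit (ix b)) _ = _
  rw [bit_ix]

theorem p_model_inj : ∀ v w : List Bool, p model.{u} v = p model.{u} w → v = w := by
  intro v
  induction v with
  | nil =>
    intro w h
    cases w with
    | nil => rfl
    | cons c w =>
      exfalso
      have h1 : (p model.{u} []).unop (fun _ => ⟨!c⟩) = (p model.{u} (c :: w)).unop (fun _ => ⟨!c⟩) := by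
        rw [h]
      rw [p_model_cons] at h1
      have h2 := congrArg ULift.down (congrFun h1 0)
      change (!c) = c at h2
      cases c <;> simp at h2
  | cons b v ih =>
    intro w h
    cases w with
    | nil =>
      exfalso
      have h1 : (p model.{u} (b :: v)).unop (fun _ => ⟨!b⟩) = (p model.{u} []).unop (fun _ => ⟨!b⟩) := by
        rw [h]
      rw [p_model_cons] at h1
      have h2 := congrArg ULift.down (congrFun h1 0)
      change b = (!b) at h2
      cases b <;> simp at h2
    | cons c w =>
      have h1 : ∀ y : C.{u}, consC b ((p model v).unop y) = consC c ((p model w).unop y) := by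
        intro y
        rw [← p_model_cons, ← p_model_cons, h]
      have h2 : b = c := congrArg ULift.down (congrFun (h1 fun _ => ⟨false⟩) 0)
      subst h2
      rw [ih w ?_]
      apply MulOpposite.unop_injective
      funext y
      funext n
      exact congrFun (h1 y) (n + 1)

/-! ### The universal CP monoid -/

section
variable {U : Type u} [Monoid U] {s : CP U 2}

theorem map_p {N : Type u} [Monoid N] {t : CP N 2} {f : U →* N} (hf : IsHom s t f)
    (v : List Bool) : f (p s v) = p t v := by
  induction v with
  | nil => simp [p]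
  | cons b v ih => rw [p, map_mul, ih, hf.1, p]

theorem p_inj (hs : IsUniversal s) {v w : List Bool} (h : p s v = p s w) : v = w := by
  obtain ⟨f, hf, -⟩ := hs _ model
  apply p_model_inj.{u}
  rw [← map_p hf, ← map_p hf, h]

/-- The elements which are given by words. -/
def Good (s : CP U 2) (g : U) : Prop :=
  ∃ n : ℕ, ∀ l : List Bool, l.length = n → ∃ w, p s l * g = p s w

theorem good_mono {g : U} {n : ℕ} (h : ∀ l : List Bool, l.length = n → ∃ w, p s l * g = p s w)
    (l : List Bool) (hl : n ≤ l.length) : ∃ w, p s l * g = p s w := by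
  obtain ⟨w, hw⟩ := h (l.take n) (by rw [List.length_take]; omega)
  refine ⟨w ++ l.drop n, ?_⟩
  conv_lhs => rw [← List.take_append_drop n l]
  rw [p_append, mul_assoc, hw, p_append]

theorem good_one : Good s 1 := ⟨0, fun l _ => ⟨l, mul_one _⟩⟩

theorem good_mul {g h : U} (hg : Good s g) (hh : Good s h) : Good s (g * h) := by
  obtain ⟨n, hn⟩ := hg
  obtain ⟨m, hm⟩ := hh
  refine ⟨n + m, fun l hl => ?_⟩
  obtain ⟨w, hw⟩ := hn (l.take n) (by rw [List.length_take]; omega)
  have h1 : p s l * g = p s (w ++ l.drop n) := by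
    conv_lhs => rw [← List.take_append_drop n l]
    rw [p_append, mul_assoc, hw, p_append]
  rw [← mul_assoc, h1]
  apply good_mono hm
  rw [List.length_append, List.length_drop]
  omega

theorem good_tau (i : Fin 2) : Good s (s.τ i) := by
  refine ⟨0, fun l hl => ⟨[bit i], ?_⟩⟩
  rw [List.length_eq_zero_iff.1 hl]
  simp [p, ix_bit]

theorem good_Phi {m : Fin 2 → U} (hm : ∀ i, Good s (m i)) : Good s (s.Φ m) := by
  choose n hn using hm
  refine ⟨n 0 + n 1 + 1, fun l hl => ?_⟩
  cases l with
  | nil => simp at hl
  | cons b v =>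
    rw [p, mul_assoc, s.mul_Φ]
    apply good_mono (hn (ix b))
    rw [List.length_cons] at hl
    cases b
    · show n 0 ≤ v.length
      omega
    · show n 1 ≤ v.length
      omega

/-- the submonoid of the elements which are given by words -/
def GoodM (s : CP U 2) : Submonoid U where
  carrier := {g | Good s g}
  one_mem' := good_one
  mul_mem' := good_mul

/-- its CP structure -/
def goodCP (s : CP U 2) : CP (GoodM s) 2 where
  Φ m := ⟨s.Φ fun i => (m i : U), good_Phi fun i => (m i).2⟩
  τ i := ⟨s.τ i, good_tau i⟩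
  bij := by
    constructor
    · intro a b h
      have h1 := s.bij.1 (congrArg Subtype.val h)
      funext i
      exact Subtype.ext (congrFun h1 i)
    · rintro ⟨g, hg⟩
      obtain ⟨a, rfl⟩ := s.bij.2 g
      have ha : ∀ i, Good s (a i) := by
        intro i
        have := good_mul (good_tau (s := s) i) hg
        rwa [s.mul_Φ] at this
      exact ⟨fun i => ⟨a i, ha i⟩, rfl⟩
  mul_Φ i m := Subtype.ext (s.mul_Φ i _)

theorem all_good (hs : IsUniversal s) (g : U) : Good s g := by
  obtain ⟨f, hf, -⟩ := hs _ (goodCP s)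
  obtain ⟨f₀, hf₀, huniq⟩ := hs U s
  have h1 : IsHom s s (MonoidHom.id U) := ⟨fun i => rfl, fun m => rfl⟩
  have h2 : IsHom s s ((GoodM s).subtype.comp f) := by
    refine ⟨fun i => ?_, fun m => ?_⟩
    · show ((f (s.τ i) : GoodM s) : U) = _
      rw [hf.1]
      rfl
    · show ((f (s.Φ m) : GoodM s) : U) = _
      rw [hf.2]
      rfl
  have h3 : (GoodM s).subtype.comp f = MonoidHom.id U := (huniq _ h2).trans (huniq _ h1).symm
  have h4 : ((f g : GoodM s) : U) = g := DFunLike.congr_fun h3 g
  rw [← h4]
  exact (f g).2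

/-- every unit is a bijection between the leaves of two trees -/
theorem unit_bij (hs : IsUniversal s) (g : Uˣ) : ∃ (T T' : Tree) (f : List Bool → List Bool),
    Set.BijOn f (lv T) (lv T') ∧ ∀ x ∈ lv T, p s x * (g : U) = p s (f x) := by
  classical
  obtain ⟨n, hn⟩ := all_good hs (g : U)
  have h1 : ∀ l : List Bool, ∃ w, l.length = n → p s l * (g : U) = p s w := by
    intro l
    by_cases hl : l.length = n
    · obtain ⟨w, hw⟩ := hn l hl
      exact ⟨w, fun _ => hw⟩
    · exact ⟨[], fun h => absurd h hl⟩
  choose w hw using h1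
  -- the words form an antichain
  have hanti : ∀ l m v : List Bool, l.length = n → m.length = n → w l ++ v = w m →
      l = m ∧ v = [] := by
    intro l m v hl hm h
    have h2 : p s m * (g : U) = p s (l ++ v) * (g : U) := by
      rw [hw m hm, ← h, p_append, p_append, ← hw l hl, mul_assoc]
    have h3 := p_inj hs (g.isUnit.mul_right_cancel h2)
    have h4 : v = [] := by
      have := congrArg List.length h3
      rw [List.length_append, hl, hm] at this
      exact List.eq_nil_of_length_eq_zero (by omega)
    subst h4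
    rw [List.append_nil] at h3
    exact ⟨h3.symm, rfl⟩
  obtain ⟨T', hT'⟩ := antichain_tree (((lv (full n)).image w).sup List.length)
    ((lv (full n)).image w) (fun x hx => Finset.le_sup (f := List.length) hx) (by
      intro x hx v hv
      rw [Finset.mem_image] at hx hv
      obtain ⟨l, hl, rfl⟩ := hx
      obtain ⟨m, hm, hm2⟩ := hv
      rw [mem_full] at hl hm
      exact (hanti l m v hl hm hm2.symm).2)
  refine ⟨full n, T', w, ⟨?_, ?_, ?_⟩, ?_⟩
  · intro l hl
    exact hT' _ (Finset.mem_image_of_mem w hl)
  · intro l hl m hm h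
    rw [Finset.mem_coe, mem_full] at hl hm
    exact (hanti l m [] hl hm (by rw [List.append_nil, h])).1
  · intro c hc
    rw [Finset.mem_coe] at hc
    by_contra hcon
    obtain ⟨d, P, e, _, hinj, hmem, hτ⟩ := exists_struct s T'
    obtain ⟨h, hh⟩ : ∃ h : U, h = P.Φ fun i => if e i = c then p s (c ++ [false]) else p s (e i) :=
      ⟨_, rfl⟩
    have hh1 : ∀ x ∈ lv T', x ≠ c → p s x * h = p s x := by
      intro x hx hxc
      obtain ⟨i, rfl⟩ := (hmem x).1 hx
      conv_lhs => rw [← hτ]
      rw [hh, P.mul_Φ, if_neg hxc]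
    have hh2 : p s c * h = p s (c ++ [false]) := by
      obtain ⟨i, hi⟩ := (hmem c).1 hc
      conv_lhs => rw [← hi, ← hτ]
      rw [hh, P.mul_Φ, if_pos hi]
    have h5 : (g : U) * h = g := by
      refine tree_ext s (full n) fun x hx => ?_
      have hx' := (mem_full n x).1 hx
      rw [← mul_assoc, hw x hx']
      refine hh1 _ (hT' _ (Finset.mem_image_of_mem w hx)) ?_
      intro hc2
      exact hcon ⟨x, hx, hc2⟩
    have h6 : h = 1 := by
      have := congrArg (fun z => ((g⁻¹ : Uˣ) : U) * z) h5
      simpa [← mul_assoc] using this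
    rw [h6, mul_one] at hh2
    have h7 := congrArg List.length (p_inj hs hh2)
    rw [List.length_append] at h7
    simp at h7
  · intro x hx
    exact hw x ((mem_full n x).1 hx)

end

/-! ### Existence of the universal CP monoid -/

/-- terms -/
inductive Term : Type u
  | one : Term
  | pr (i : Fin 2) : Term
  | mul (a b : Term) : Term
  | sig (a b : Term) : Term

/-- the equations of a CP monoid -/
inductive Rel : Term.{u} → Term.{u} → Prop
  | refl (a) : Rel a a
  | symm {a b} : Rel a b → Rel b a
  | trans {a b c} : Rel a b → Rel b c → Rel a c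
  | mul_congr {a a' b b'} : Rel a a' → Rel b b' → Rel (.mul a b) (.mul a' b')
  | sig_congr {a a' b b'} : Rel a a' → Rel b b' → Rel (.sig a b) (.sig a' b')
  | one_mul (a) : Rel (.mul .one a) a
  | mul_one (a) : Rel (.mul a .one) a
  | mul_assoc (a b c) : Rel (.mul (.mul a b) c) (.mul a (.mul b c))
  | pr_zero (a b) : Rel (.mul (.pr 0) (.sig a b)) a
  | pr_one (a b) : Rel (.mul (.pr 1) (.sig a b)) b
  | sig_pr (a) : Rel (.sig (.mul (.pr 0) a) (.mul (.pr 1) a)) a

instance termSetoid : Setoid Term.{u} := ⟨Rel, Rel.refl, Rel.symm, Rel.trans⟩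

/-- the universal CP monoid -/
def Univ : Type u := Quotient termSetoid.{u}

instance : Monoid Univ.{u} where
  mul := Quotient.map₂ Term.mul fun _ _ h _ _ h' => Rel.mul_congr h h'
  one := Quotient.mk _ Term.one
  mul_assoc := by
    rintro ⟨a⟩ ⟨b⟩ ⟨c⟩
    exact Quotient.sound (Rel.mul_assoc a b c)
  one_mul := by
    rintro ⟨a⟩
    exact Quotient.sound (Rel.one_mul a)
  mul_one := by
    rintro ⟨a⟩
    exact Quotient.sound (Rel.mul_one a)

/-- the class of a term -/
def mkU (a : Term.{u}) : Univ.{u} := Quotient.mk _ a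

/-- pairing in the universal CP monoid -/
def sigQ : Univ.{u} → Univ.{u} → Univ.{u} :=
  Quotient.map₂ Term.sig fun _ _ h _ _ h' => Rel.sig_congr h h'

/-- the projections in the universal CP monoid -/
def prQ (i : Fin 2) : Univ.{u} := Quotient.mk _ (Term.pr i)

theorem prQ_sigQ (i : Fin 2) (m : Fin 2 → Univ.{u}) : prQ i * sigQ (m 0) (m 1) = m i := by
  obtain ⟨a, ha⟩ : ∃ a, a = m 0 := ⟨_, rfl⟩
  obtain ⟨b, hb⟩ : ∃ b, b = m 1 := ⟨_, rfl⟩
  fin_cases i
  · show prQ 0 * sigQ (m 0) (m 1) = m 0
    rw [← ha, ← hb]
    induction a using Quotient.inductionOn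
    induction b using Quotient.inductionOn
    exact Quotient.sound (Rel.pr_zero _ _)
  · show prQ 1 * sigQ (m 0) (m 1) = m 1
    rw [← ha, ← hb]
    induction a using Quotient.inductionOn
    induction b using Quotient.inductionOn
    exact Quotient.sound (Rel.pr_one _ _)

/-- its CP structure -/
def univCP : CP Univ.{u} 2 where
  Φ m := sigQ (m 0) (m 1)
  τ := prQ
  bij := by
    constructor
    · intro a b h
      funext i
      rw [← prQ_sigQ i a, ← prQ_sigQ i b]
      exact congrArg _ h
    · intro m
      refine ⟨fun i => prQ i * m, ?_⟩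
      induction m using Quotient.inductionOn
      exact Quotient.sound (Rel.sig_pr _)
  mul_Φ := prQ_sigQ

/-- the value of a term in a CP monoid -/
def ev {N : Type u} [Monoid N] (t : CP N 2) : Term.{u} → N
  | .one => 1
  | .pr i => t.τ i
  | .mul a b => ev t a * ev t b
  | .sig a b => t.Φ ![ev t a, ev t b]

theorem ev_rel {N : Type u} [Monoid N] (t : CP N 2) {a b : Term.{u}} (h : Rel a b) :
    ev t a = ev t b := by
  induction h with
  | refl => rfl
  | symm _ ih => exact ih.symm
  | trans _ _ ih ih' => exact ih.trans ih'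
  | mul_congr _ _ ih ih' => rw [ev, ih, ih', ev]
  | sig_congr _ _ ih ih' => rw [ev, ih, ih', ev]
  | one_mul => rw [ev, ev, _root_.one_mul]
  | mul_one => rw [ev, ev, _root_.mul_one]
  | mul_assoc => simp only [ev, _root_.mul_assoc]
  | pr_zero a b => rw [ev, ev, ev, t.mul_Φ]; rfl
  | pr_one a b => rw [ev, ev, ev, t.mul_Φ]; rfl
  | sig_pr a =>
    refine t.ext' fun i => ?_
    rw [ev, t.mul_Φ]
    fin_cases i <;> rfl

theorem univ_universal : IsUniversal univCP.{u} := by
  intro N _ t
  let F : Univ.{u} →* N :=
    { toFun := Quotient.lift (ev t) fun a b h => ev_rel t h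
      map_one' := rfl
      map_mul' := by
        rintro ⟨a⟩ ⟨b⟩
        rfl }
  have hF : IsHom univCP t F := by
    refine ⟨fun i => rfl, fun m => ?_⟩
    obtain ⟨a, ha⟩ : ∃ a, a = m 0 := ⟨_, rfl⟩
    obtain ⟨b, hb⟩ : ∃ b, b = m 1 := ⟨_, rfl⟩
    have h1 : (fun i => F (m i)) = ![F a, F b] := by
      funext i
      fin_cases i
      · show F (m 0) = F a
        rw [ha]
      · show F (m 1) = F b
        rw [hb]
    rw [h1]
    show F (sigQ (m 0) (m 1)) = _
    rw [← ha, ← hb]
    clear h1 ha hb
    induction a using Quotient.inductionOn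
    induction b using Quotient.inductionOn
    rfl
  refine ⟨F, hF, fun G hG => ?_⟩
  ext z
  induction z using Quotient.inductionOn with
  | _ a =>
    induction a with
    | one => exact (map_one G).trans (map_one F).symm
    | pr i => exact (hG.1 i).trans (hF.1 i).symm
    | mul a b iha ihb =>
      show G (mkU a * mkU b) = F (mkU a * mkU b)
      rw [map_mul, map_mul]
      exact congrArg₂ _ iha ihb
    | sig a b iha ihb =>
      have h1 := hG.2 ![mkU a, mkU b]
      have h2 := hF.2 ![mkU a, mkU b]
      have h3 : (fun i => G ((![mkU a, mkU b] : Fin 2 → Univ.{u}) i)) =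
          fun i => F ((![mkU a, mkU b] : Fin 2 → Univ.{u}) i) := by
        funext i
        fin_cases i
        · exact iha
        · exact ihb
      rw [h3] at h1
      exact h1.trans h2.symm

/-- **Q1 has a positive answer.** The universal CP monoid exists, and for every universal CP monoid
`(U, s)` all elements `ψ_{Φ,τ} σ` for the structures `(Φ, τ)` in `𝕊(U)` are units and the group of units
of `U` is generated by those with `d ≥ 2`. -/
theorem result : (∃ (U : Type u) (_ : Monoid U) (s : CP U 2), IsUniversal s) ∧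
    ∀ (U : Type u) [Monoid U] (s : CP U 2), IsUniversal s →
      (∀ (d : ℕ) (P : CP U d) (σ : Equiv.Perm (Fin d)), S s d P → IsUnit (psi P σ)) ∧
      Subgroup.closure {u : Uˣ | ∃ (d : ℕ) (P : CP U d) (σ : Equiv.Perm (Fin d)),
        2 ≤ d ∧ S s d P ∧ (u : U) = psi P σ} = ⊤ := by
  refine ⟨⟨Univ.{u}, inferInstance, univCP, univ_universal⟩, fun U _ s hs => ⟨?_, ?_⟩⟩
  · intro d P σ _
    exact ⟨psiU P σ, rfl⟩
  · rw [eq_top_iff]
    intro g _
    obtain ⟨T, T', f, hf, hg⟩ := unit_bij hs g
    obtain ⟨u, hu, hug⟩ := bij_mem s (size T) T T' f (g : U) rfl hf hg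
    rw [← Units.ext hug]
    exact hu

end Pool.Agent.Results.MP_6189ff_al.SymmetricGroupsGenerate
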